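import Pool.Agent.W805.LR.Stm5

set_option autoImplicit false

/-! Project PD, part FD: if almost all sampled points are lonely, then the test points are lonely. -/

namespace Pool.Agent.W64.PD

open Finset Equiv
open Pool.Agent.W805.LR Pool.Agent.W805.PD

variable {V : Type} [Fintype V] [DecidableEq V] {m K : ℕ}

lemma SE_eq (y : Ix m K ↪ V) : Sy y ∪ Ey y = univ.image y := by
  ext x
  simp only [Sy, Ey, Finset.mem_union, Finset.mem_image, Finset.mem_univ, true_and]
  constructor
  · rintro (⟨i, hi⟩ | ⟨i, hi⟩)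
    · exact ⟨_, hi⟩
    · exact ⟨_, hi⟩
  · rintro ⟨i | i, hi⟩
    · exact Or.inl ⟨i, hi⟩
    · exact Or.inr ⟨i, hi⟩

/-- the set of lonely points depends only on the set of sampled points -/
lemma Ly_eq (h : Perm V) (y y' : Ix m K ↪ V) (hyy : (univ.image y : Finset V) = univ.image y') :
    Ly h y = Ly h y' := by
  unfold Ly ry
  rw [SE_eq, SE_eq, hyy]

lemma image_perm (y : Ix m K ↪ V) (π : Perm (Ix m K)) :
    (univ.image (π.toEmbedding.trans y) : Finset V) = univ.image y := by
  ext x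
  simp only [Finset.mem_image, Finset.mem_univ, true_and]
  constructor
  · rintro ⟨i, hi⟩
    exact ⟨π i, hi⟩
  · rintro ⟨i, hi⟩
    refine ⟨π.symm i, ?_⟩
    show y (π (π.symm i)) = x
    rw [π.apply_symm_apply]
    exact hi

/-- the indicator -/
noncomputable def FF (h : Perm V) (η : ℝ) (y : Ix m K ↪ V) (k : Ix m K) : ℝ :=
  if (1 - η) * (2 * K) < (Ly h y).card ∧ y k ∉ Ly h y then 1 else 0

lemma FF_nonneg (h : Perm V) (η : ℝ) (y : Ix m K ↪ V) (k : Ix m K) : 0 ≤ FF h η y k := by
  unfold FF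
  split_ifs <;> norm_num

lemma sum_swap (h : Perm V) (η : ℝ) (i k : Ix m K) :
    ∑ y : Ix m K ↪ V, FF h η y i = ∑ y : Ix m K ↪ V, FF h η y k := by
  classical
  let e : (Ix m K ↪ V) ≃ (Ix m K ↪ V) :=
    { toFun := fun y => (Equiv.swap i k).toEmbedding.trans y
      invFun := fun y => (Equiv.swap i k).toEmbedding.trans y
      left_inv := fun y => by
        ext j
        show y (Equiv.swap i k (Equiv.swap i k j)) = y j
        rw [Equiv.swap_apply_self]
      right_inv := fun y => by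
        ext j
        show y (Equiv.swap i k (Equiv.swap i k j)) = y j
        rw [Equiv.swap_apply_self] }
  rw [← Equiv.sum_comp e (fun y => FF h η y k)]
  refine Finset.sum_congr rfl fun y _ => ?_
  unfold FF
  have h1 : Ly h (e y) = Ly h y := Ly_eq h _ _ (image_perm y _)
  have h2 : (e y) k = y i := by
    show y (Equiv.swap i k k) = y i
    rw [Equiv.swap_apply_right]
  rw [h1, h2]

lemma sum_k (h : Perm V) (η : ℝ) (hη : 0 ≤ η) (y : Ix m K ↪ V) :
    ∑ k : Ix m K, FF h η y k ≤ m + 2 * K * η := by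
  classical
  unfold FF
  by_cases hA : (1 - η) * (2 * K) < (Ly h y).card
  · simp only [hA, true_and]
    rw [Finset.sum_boole]
    have h1 : (univ.filter fun k : Ix m K => y k ∉ Ly h y).card + (Ly h y).card = m + 2 * K := by
      have h2 : (univ.filter fun k : Ix m K => y k ∈ Ly h y).card = (Ly h y).card := by
        rw [← Finset.card_map y]
        congr 1
        ext x
        simp only [Finset.mem_map, Finset.mem_filter, Finset.mem_univ, true_and]
        constructor
        · rintro ⟨k, hk, rfl⟩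
          exact hk
        · intro hx
          have h3 : x ∈ Sy y ∪ Ey y := (Finset.mem_filter.1 hx).1
          rw [SE_eq] at h3
          obtain ⟨k, _, rfl⟩ := Finset.mem_image.1 h3
          exact ⟨k, hx, rfl⟩
      rw [← h2, add_comm, Finset.card_filter_add_card_filter_not]
      simp [Fintype.card_sum, mul_comm]
    have h2 : ((univ.filter fun k : Ix m K => y k ∉ Ly h y).card : ℝ) + ((Ly h y).card : ℝ) =
        m + 2 * K := by exact_mod_cast h1
    nlinarith
  · simp only [hA, false_and, if_false, Finset.sum_const_zero]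
    positivity

lemma sum_one (h : Perm V) (η : ℝ) (hη : 0 ≤ η) (hK : 1 ≤ K) (i : Ix m K) :
    ∑ y : Ix m K ↪ V, FF h η y i ≤ (Fintype.card (Ix m K ↪ V) : ℝ) * (η + m / (2 * K)) := by
  classical
  have hK' : (1 : ℝ) ≤ K := by exact_mod_cast hK
  have hm : (0 : ℝ) ≤ m := Nat.cast_nonneg m
  have h1 : ((m : ℝ) + 2 * K) * ∑ y : Ix m K ↪ V, FF h η y i =
      ∑ k : Ix m K, ∑ y : Ix m K ↪ V, FF h η y k := by
    rw [Finset.sum_congr rfl fun k _ => (sum_swap h η k i), Finset.sum_const, nsmul_eq_mul]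
    congr 1
    simp [Fintype.card_sum, mul_comm]
  have h2 : ∑ k : Ix m K, ∑ y : Ix m K ↪ V, FF h η y k ≤
      (Fintype.card (Ix m K ↪ V) : ℝ) * (m + 2 * K * η) := by
    rw [Finset.sum_comm]
    calc ∑ y : Ix m K ↪ V, ∑ k : Ix m K, FF h η y k ≤
          ∑ _y : Ix m K ↪ V, ((m : ℝ) + 2 * K * η) := Finset.sum_le_sum fun y _ => sum_k h η hη y
      _ = _ := by rw [Finset.sum_const, nsmul_eq_mul, Finset.card_univ]
  have h3 : 0 ≤ ∑ y : Ix m K ↪ V, FF h η y i := Finset.sum_nonneg fun y _ => FF_nonneg h η y i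
  have h4 : (2 * (K : ℝ)) * ∑ y : Ix m K ↪ V, FF h η y i ≤
      (Fintype.card (Ix m K ↪ V) : ℝ) * (m + 2 * K * η) := by
    nlinarith
  have h5 : (Fintype.card (Ix m K ↪ V) : ℝ) * (η + m / (2 * K)) =
      (Fintype.card (Ix m K ↪ V) : ℝ) * (m + 2 * K * η) / (2 * K) := by
    field_simp
    ring
  rw [h5, le_div_iff₀ (by positivity)]
  linarith

theorem main : S_FD := by
  classical
  intro V _ _ m K h η hm hK hη hη1 hcard
  unfold uavg
  have h1 : ∀ y : Ix m K ↪ V,
      (if (1 - η) * (2 * K) < (Ly h y).card ∧ S1y h y ≠ ∅ then (1 : ℝ) else 0) ≤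
      ∑ i : Fin m, FF h η y (Sum.inl i) := by
    intro y
    have h0 : 0 ≤ ∑ i : Fin m, FF h η y (Sum.inl i) :=
      Finset.sum_nonneg fun i _ => FF_nonneg h η y _
    split_ifs with hc
    · obtain ⟨hA, hS⟩ := hc
      obtain ⟨x, hx⟩ := Finset.nonempty_iff_ne_empty.2 hS
      rw [S1y, Finset.mem_filter] at hx
      obtain ⟨i, _, rfl⟩ := Finset.mem_image.1 hx.1
      have h2 : FF h η y (Sum.inl i) = 1 := by
        unfold FF
        rw [if_pos]
        refine ⟨hA, fun h3 => hx.2 ?_⟩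
        exact (Finset.mem_filter.1 h3).2
      rw [← h2]
      exact Finset.single_le_sum (f := fun i : Fin m => FF h η y (Sum.inl i))
        (fun i _ => FF_nonneg h η y _) (Finset.mem_univ i)
    · exact h0
  have h2 : ∑ y : Ix m K ↪ V,
      (if (1 - η) * (2 * K) < (Ly h y).card ∧ S1y h y ≠ ∅ then (1 : ℝ) else 0) ≤
      (m : ℝ) * ((Fintype.card (Ix m K ↪ V) : ℝ) * (η + m / (2 * K))) := by
    calc _ ≤ ∑ y : Ix m K ↪ V, ∑ i : Fin m, FF h η y (Sum.inl i) :=
          Finset.sum_le_sum fun y _ => h1 y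
      _ = ∑ i : Fin m, ∑ y : Ix m K ↪ V, FF h η y (Sum.inl i) := Finset.sum_comm
      _ ≤ ∑ _i : Fin m, ((Fintype.card (Ix m K ↪ V) : ℝ) * (η + m / (2 * K))) :=
          Finset.sum_le_sum fun i _ => sum_one h η hη.le hK _
      _ = _ := by rw [Finset.sum_const, nsmul_eq_mul, Finset.card_univ, Fintype.card_fin]
  have hpos : 0 ≤ (m : ℝ) * (η + m / (2 * K)) := by positivity
  rcases (Nat.eq_zero_or_pos (Fintype.card (Ix m K ↪ V))) with h0 | h0
  · rw [h0, Nat.cast_zero, div_zero]
    exact hpos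
  · rw [div_le_iff₀ (by exact_mod_cast h0)]
    linarith

end Pool.Agent.W64.PD
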